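import Pool.Agent.R410.OR.TD2
import Pool.Agent.R410.OR.Base

/-!
# Dense ordinary reduction of hyperelliptic curves of small codimension in the moduli space

Let `k` be a field of characteristic `0` and `X : y² = ∏ (x - s)`, `s ∈ S`, a hyperelliptic curve of
genus `g` over `k`, where `S ⊂ k` has `2 g + 1` or `2 g + 2` elements. Every hyperelliptic curve over an
algebraically closed field has an equation with `|S| = 2 g + 1` (one branch point is moved to `∞`), and
then the moduli of `X` are the ratios `(s - a) / (b - a)`, for two fixed `a, b ∈ S`; the moduli space of
hyperelliptic curves has dimension `|S| - 2 = 2 g - 1`.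

**Theorem.** If at least `|S| - 4` of the ratios are algebraically independent over `ℚ` (for
`|S| = 2 g + 1`: the transcendence degree of the field of moduli of `X` is at least `2 g - 3`, so the
smallest subvariety over `ℚ` of the moduli space which contains `X` has codimension at most `2`), then
`X`, and the product of `X` with any finite number of elliptic curves over `k`, have dense ordinary
reduction: let `A ⊂ k` be a finitely generated ring over which the curves are defined; every
nonempty open subset of `Spec A` contains a closed point at which the Hasse-Witt matrices of all the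
curves are invertible.

Proof.
* Valued fields of characteristic `p` (`R410/OR/Val3.lean`): if all the components of the semistable
  reduction of a hyperelliptic curve are ordinary, then the curve is ordinary (kernel of the Cartier
  operator, Gauss norms of all the discs given by two branch points).
* `R410/OR/Tr2.lean`: for a valuation ring of `K ⊃ S` with residue field of characteristic `0`, dense
  ordinary reduction of the components of the reduction implies dense ordinary reduction of the
  curve.
* `R410/OR/Base.lean`: curves of genus `≤ 1` with all points of order two over `𝔽_p` are ordinary when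
  `p ≡ 1 mod 4` (their numbers of points are divisible by `4`); a finitely generated domain has
  homomorphisms to such fields `𝔽_p`.
* `R410/OR/TD2.lean`: there is a valuation ring at which one of the independent ratios reduces to `0` and
  the others stay independent; all the components but one have genus `≤ 1`, and the last one, with
  the nodes as additional marked points, has again codimension at most `2`. Induction.
-/

set_option autoImplicit false

open Polynomial

universe u

namespace Pool.Agent.Results.MP_adc574_ag.ModuliCodimensionTwo

/-- The Hasse-Witt (Cartier-Manin) matrix of `y² = f(x)`: the entry with indices `i, j` (from `0`)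
is the coefficient of `x ^ (p (i + 1) - (j + 1))` in `f ^ ((p - 1) / 2)`, written as the coefficient of
`x ^ (p (i + 1))` in `x ^ (j + 1) f ^ ((p - 1) / 2)`. For `f` squarefree of degree `2 g + 1` or `2 g + 2` over
a field of characteristic `p > 2` the curve is ordinary if and only if this matrix is invertible. -/
noncomputable def hasseWitt {R : Type*} [CommRing R] (p g : ℕ) (f : R[X]) :
    Matrix (Fin g) (Fin g) R :=
  Matrix.of fun i j => (X ^ ((j : ℕ) + 1) * f ^ ((p - 1) / 2)).coeff (p * ((i : ℕ) + 1))

theorem result {k : Type u} [Field k] [CharZero k]
    -- the curve `y² = ∏ (x - s)`, `s ∈ S`; at least `|S| - 4` of the ratios are independent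
    (S : Finset k) {a b : k} (ha : a ∈ S) (hb : b ∈ S) (hab : a ≠ b) {T : ℕ} (s : Fin T → k)
    (hs : ∀ i, s i ∈ S) (ht : AlgebraicIndependent ℚ fun i => (s i - a) / (b - a))
    (hcard : S.card ≤ T + 4)
    -- finitely many curves of genus at most one
    {ι : Type*} [Finite ι] (E : ι → Finset k) (hE : ∀ i, (E i).card ≤ 4)
    -- a finitely generated ring over which the curves are defined, a nonempty open set
    (A : Subalgebra ℤ k) (hA : A.FG)
    (F : A[X]) (hF : F.map (algebraMap A k) = ∏ x ∈ S, (X - C x))
    (G : ι → A[X]) (hG : ∀ i, (G i).map (algebraMap A k) = ∏ x ∈ E i, (X - C x))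
    (c : A) (hc : c ≠ 0) :
    ∃ (p : ℕ) (M : Ideal A), p.Prime ∧ p ≠ 2 ∧ M.IsMaximal ∧ (p : A) ∈ M ∧ c ∉ M ∧
      (hasseWitt p ((S.card - 1) / 2) (F.map (Ideal.Quotient.mk M))).det ≠ 0 ∧
      ∀ i, (hasseWitt p (((E i).card - 1) / 2) ((G i).map (Ideal.Quotient.mk M))).det ≠ 0 := by
  classical
  have hfin := Fintype.ofFinite ι
  let e : ι ≃ Fin (Fintype.card ι) := Fintype.equivFin ι
  have h1 := Pool.Agent.R410.OR.codim 1 (fun κ _ _ J _ R hR => Pool.Agent.R410.OR.base R hR) T k S S
    (Finset.Subset.refl S) a b ha hb hab s hs ht (by omega) (ULift.{u} (Fin (Fintype.card ι)))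
    (fun i => E (e.symm i.down)) (fun i => hE _)
  obtain ⟨p, M, h2, h3, h4, h5, h6, h7⟩ := h1 A hA
    (fun o => o.elim F fun i => G (e.symm i.down)) (by
      intro o
      cases o with
      | none => exact hF
      | some i => exact hG _) c hc
  refine ⟨p, M, h2, h3, h4, h5, h6, h7 none, fun i => ?_⟩
  obtain ⟨j, rfl⟩ := e.symm.surjective i
  exact h7 (some ⟨j⟩)

end Pool.Agent.Results.MP_adc574_ag.ModuliCodimensionTwo
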