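import Pool.Agent.R410.OR.Base2

/-!
# Dense ordinary reduction of hyperelliptic curves with a degeneration into curves of genus at most two

Let `K` be a field of characteristic `0` and `X : y² = ∏ (x - s)`, `s ∈ S`, a hyperelliptic curve over `K`,
of any genus (`S ⊂ K` finite; every hyperelliptic curve over an algebraically closed field has such an
equation). Let `O ⊂ K` be a valuation ring whose residue field `κ` has characteristic `0` (for example the
local ring of a point of a smooth model of `K` over a subfield, or a valuation ring of any rank composed of
such rings). The components of the semistable reduction of `X` at `O` correspond to the smallest discs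
with two points `a ≠ b` of `S`: the component of the disc is the curve `y² = ∏ (x - z)` over `κ`, where `z`
runs through the points to which an odd number of the `(s - a) / (b - a)` reduce.

**Theorem.** Let `X_i` be finitely many such curves and suppose that all the components of their
reductions at `O` have genus at most two (at most six points `z`). Then the `X_i` have simultaneous dense
ordinary reduction: if they are defined over a finitely generated ring `A ⊂ K`, then every nonempty open
subset of `Spec A` contains a closed point at which the Hasse-Witt matrices of all the curves `X_i` are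
invertible. So the product of their Jacobians has dense ordinary reduction.

For example all hyperelliptic curves with totally degenerate reduction at some valuation ring with
residue characteristic `0`; the genus and the codimension in the moduli space are arbitrary.

Proof: `R410/OR/Val3.lean` (valued fields of characteristic `p`: if the Hasse-Witt matrices of all the
components of the reduction are invertible, then the Hasse-Witt matrix of the curve is invertible),
`R410/OR/Tr2.lean` (spreading out over a finitely generated ring; a valuation ring of the fraction field of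
`A / M'`, for a prime ideal `M'` of `A` of residue characteristic `p`, which dominates the reduction of `O`),
and `R410/OR/Base2.lean` (curves of genus at most two over `𝔽_p`, `p ≡ 1 mod 16`, all of whose differences of
branch points are squares, are ordinary).
-/

set_option autoImplicit false

open Polynomial

universe u

namespace Pool.Agent.Results.MP_adc574_ag.SemistableDegeneration

/-- The Hasse-Witt (Cartier-Manin) matrix of `y² = f(x)`: the entry with indices `i, j` (from `0`)
is the coefficient of `x ^ (p (i + 1) - (j + 1))` in `f ^ ((p - 1) / 2)`, written as the coefficient of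
`x ^ (p (i + 1))` in `x ^ (j + 1) f ^ ((p - 1) / 2)`. For `f` squarefree of degree `2 g + 1` or `2 g + 2` over
a field of characteristic `p > 2` the curve is ordinary if and only if this matrix is invertible. -/
noncomputable def hasseWitt {R : Type*} [CommRing R] (p g : ℕ) (f : R[X]) :
    Matrix (Fin g) (Fin g) R :=
  Matrix.of fun i j => (X ^ ((j : ℕ) + 1) * f ^ ((p - 1) / 2)).coeff (p * ((i : ℕ) + 1))

/-- The residue class of `t ∈ O` (and `0` for `t ∉ O`). -/
noncomputable def residueClass {K : Type*} [Field K] (O : ValuationSubring K) (t : K) :
    IsLocalRing.ResidueField O :=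
  open Classical in if h : t ∈ O then IsLocalRing.residue O ⟨t, h⟩ else 0

/-- The number of the points `s ∈ S` in the smallest disc which contains `a` and `b`, that is
`(s - a) / (b - a) ∈ O`, for which `(s - a) / (b - a)` reduces to `z`. -/
noncomputable def multiplicity {K : Type*} [Field K] (O : ValuationSubring K) (S : Finset K) (a b : K)
    (z : IsLocalRing.ResidueField O) : ℕ :=
  Nat.card {s : K // s ∈ S ∧ (s - a) / (b - a) ∈ O ∧ residueClass O ((s - a) / (b - a)) = z}

/-- The branch points (in the affine line) of the component of the reduction of `y² = ∏ (x - s)`,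
`s ∈ S`, which belongs to the smallest disc containing `a` and `b`. -/
def branchPoints {K : Type*} [Field K] (O : ValuationSubring K) (S : Finset K) (a b : K) :
    Set (IsLocalRing.ResidueField O) :=
  {z | Odd (multiplicity O S a b z)}

theorem result {K : Type u} [Field K] [CharZero K] (O : ValuationSubring K)
    [CharZero (IsLocalRing.ResidueField O)] {ι : Type*} [Finite ι]
    -- the curves `y² = ∏ (x - s)`, `s ∈ S i`
    (S : ι → Finset K)
    -- the components of the reductions have genus at most two
    (hS : ∀ i, ∀ a ∈ S i, ∀ b ∈ S i, a ≠ b → (branchPoints O (S i) a b).ncard ≤ 6)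
    -- a finitely generated ring over which the curves are defined, a nonempty open set
    (A : Subalgebra ℤ K) (hA : A.FG)
    (F : ι → A[X]) (hF : ∀ i, (F i).map (algebraMap A K) = ∏ x ∈ S i, (X - C x))
    (c : A) (hc : c ≠ 0) :
    ∃ (p : ℕ) (M : Ideal A), p.Prime ∧ p ≠ 2 ∧ M.IsMaximal ∧ (p : A) ∈ M ∧ c ∉ M ∧
      ∀ i, (hasseWitt p (((S i).card - 1) / 2) ((F i).map (Ideal.Quotient.mk M))).det ≠ 0 := by
  classical
  have hfin := Fintype.ofFinite ι
  have hmult : ∀ (T : Finset K) (a b : K) (z : IsLocalRing.ResidueField O),
      multiplicity O T a b z = Pool.Agent.R410.OR.mult O a b T z := by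
    intro T a b z
    have e : ∀ s : K, s ∈ (Pool.Agent.R410.OR.inn O a b T).filter
        (fun r => Pool.Agent.R410.OR.red O ((r - a) / (b - a)) = z) ↔
        (s ∈ T ∧ (s - a) / (b - a) ∈ O ∧ residueClass O ((s - a) / (b - a)) = z) := by
      intro s
      rw [Finset.mem_filter]
      unfold Pool.Agent.R410.OR.inn
      rw [Finset.mem_filter, and_assoc]
      rfl
    unfold multiplicity
    rw [Nat.card_congr (Equiv.subtypeEquivRight fun s => (e s).symm), Nat.card_eq_fintype_card,
      Fintype.card_coe]
    unfold Pool.Agent.R410.OR.mult
    congr
  have hbr : ∀ (T : Finset K) (a b : K),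
      branchPoints O T a b = (Pool.Agent.R410.OR.comp O a b T : Set (IsLocalRing.ResidueField O)) := by
    intro T a b
    ext z
    unfold branchPoints
    rw [Set.mem_setOf_eq, hmult, Finset.mem_coe]
    unfold Pool.Agent.R410.OR.comp
    rw [Finset.mem_filter, iff_and_self]
    intro hodd
    have h1 : 0 < Pool.Agent.R410.OR.mult O a b T z := hodd.pos
    unfold Pool.Agent.R410.OR.mult at h1
    obtain ⟨s, hs⟩ := Finset.card_pos.1 h1
    rw [Finset.mem_filter] at hs
    exact Finset.mem_image.2 ⟨s, hs.1, hs.2⟩
  let J := Σ i : ι, (S i) × (S i)
  let R : J → Finset (IsLocalRing.ResidueField O) := fun e =>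
    if (e.2.1 : K) ≠ (e.2.2 : K) then Pool.Agent.R410.OR.comp O (e.2.1 : K) (e.2.2 : K) (S e.1) else ∅
  have hR : Pool.Agent.R410.OR.DO R := by
    apply Pool.Agent.R410.OR.base2
    rintro ⟨i, a, b⟩
    show (if (a : K) ≠ (b : K) then Pool.Agent.R410.OR.comp O (a : K) (b : K) (S i) else ∅).card ≤ 6
    split_ifs with hab
    · have h1 := hS i a a.2 b b.2 hab
      rw [hbr, Set.ncard_coe_finset] at h1
      exact h1
    · simp
  have hDO : Pool.Agent.R410.OR.DO S := by
    refine Pool.Agent.R410.OR.transfer O S R ?_ hR
    intro i a ha b hb hab
    refine Or.inr ⟨⟨i, ⟨a, ha⟩, ⟨b, hb⟩⟩, 1, 0, one_ne_zero, ?_⟩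
    have e1 : R ⟨i, ⟨a, ha⟩, ⟨b, hb⟩⟩ = Pool.Agent.R410.OR.comp O a b (S i) := if_pos hab
    rw [e1]
    simp
  exact hDO A hA F hF c hc

end Pool.Agent.Results.MP_adc574_ag.SemistableDegeneration
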